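import Mathlib

/-!
Algebraically independent elements have linearly independent differentials (characteristic 0).
-/

set_option autoImplicit false

namespace Pool.Agent.H69KD

open KaehlerDifferential TensorProduct MvPolynomial

theorem etale {L : Type*} [Field L] [CharZero L] (A : Subring L) (t : Set L)
    (ht : IsTranscendenceBasis A ((↑) : t → L)) :
    Algebra.FormallyEtale (Algebra.adjoin A (Set.range ((↑) : t → L))) L := by
  set S := Algebra.adjoin A (Set.range ((↑) : t → L)) with hS
  have halg : Algebra.IsAlgebraic S L := ht.isAlgebraic
  haveI h1 : Algebra.FormallyEtale S (FractionRing S) :=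
    Algebra.FormallyEtale.of_isLocalization (nonZeroDivisors S)
  letI : Algebra (FractionRing S) L := FractionRing.liftAlgebra S L
  haveI : IsScalarTower S (FractionRing S) L := FractionRing.isScalarTower_liftAlgebra S L
  haveI : Algebra.IsAlgebraic (FractionRing S) L :=
    Algebra.IsAlgebraic.extendScalars (R := S) (S := FractionRing S) (A := L)
      (IsFractionRing.injective S (FractionRing S))
  haveI : CharZero (FractionRing S) := by
    have hinj : Function.Injective (algebraMap (FractionRing S) L) := RingHom.injective _
    exact (RingHom.charZero_iff hinj).2 inferInstance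
  haveI : Algebra.IsSeparable (FractionRing S) L := inferInstance
  haveI : Algebra.FormallyEtale (FractionRing S) L := Algebra.FormallyEtale.of_isSeparable _ _
  exact Algebra.FormallyEtale.comp S (FractionRing S) L

theorem lin_basis {L : Type*} [Field L] [CharZero L] (A : Subring L) (t : Set L)
    (ht : IsTranscendenceBasis A ((↑) : t → L)) :
    LinearIndependent L (fun k : t => KaehlerDifferential.D A L (k : L)) := by
  classical
  haveI := etale A t ht
  set S := Algebra.adjoin A (Set.range ((↑) : t → L)) with hS
  let e : MvPolynomial t A ≃ₐ[A] S := ht.1.aevalEquiv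
  have hex : ∀ k : t, algebraMap S L (e (X k)) = (k : L) := by
    intro k
    rw [AlgebraicIndependent.algebraMap_aevalEquiv]
    simp
  -- the derivation of `S` with values in `L`
  let d : t → Derivation A S L := fun j => Derivation.mk'
    ((IsScalarTower.toAlgHom A S L).toLinearMap ∘ₗ e.toLinearMap ∘ₗ
      ((pderiv j : Derivation A (MvPolynomial t A) (MvPolynomial t A)) :
        MvPolynomial t A →ₗ[A] MvPolynomial t A) ∘ₗ e.symm.toLinearMap)
    (fun a b => by
      show algebraMap S L (e (pderiv j (e.symm (a * b)))) =
        a • algebraMap S L (e (pderiv j (e.symm b))) + b • algebraMap S L (e (pderiv j (e.symm a)))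
      rw [map_mul e.symm, Derivation.leibniz, smul_eq_mul, smul_eq_mul, map_add, map_add,
        map_mul e, map_mul e, map_mul, map_mul, e.apply_symm_apply, e.apply_symm_apply,
        Algebra.smul_def, Algebra.smul_def])
  have hd : ∀ j k : t, d j (e (X k)) = if k = j then 1 else 0 := by
    intro j k
    show algebraMap S L (e (pderiv j (e.symm (e (X k))))) = _
    rw [AlgEquiv.symm_apply_apply]
    by_cases h : k = j
    · subst h; rw [pderiv_X_self, if_pos rfl, map_one, map_one]
    · rw [if_neg h, pderiv_X_of_ne h, map_zero, map_zero]
  let Φ : t → (Ω[L⁄A] →ₗ[L] L) := fun j =>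
    (LinearMap.liftBaseChange L (d j).liftKaehlerDifferential) ∘ₗ
      (tensorKaehlerEquivOfFormallyEtale A S L).symm.toLinearMap
  have hΦ : ∀ j k : t, Φ j (KaehlerDifferential.D A L (k : L)) = if k = j then 1 else 0 := by
    intro j k
    rw [← hex k]
    show (LinearMap.liftBaseChange L (d j).liftKaehlerDifferential)
      ((tensorKaehlerEquivOfFormallyEtale A S L).symm
        (KaehlerDifferential.D A L (algebraMap S L (e (X k))))) = _
    rw [tensorKaehlerEquivOfFormallyEtale_symm_D_algebraMap, LinearMap.liftBaseChange_tmul,
      one_smul, Derivation.liftKaehlerDifferential_comp_D, hd]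
  rw [linearIndependent_iff']
  intro s g hg i hi
  have h := congrArg (Φ i) hg
  rw [map_sum, map_zero] at h
  simp only [map_smul, hΦ, smul_eq_mul, mul_ite, mul_one, mul_zero] at h
  rw [Finset.sum_ite_eq' s i] at h
  rwa [if_pos hi] at h

theorem lin_of_alg {L : Type} [Field L] [CharZero L] (A : Subring L) {ι : Type} [Finite ι]
    (x : ι → L) (h : AlgebraicIndependent A x) :
    LinearIndependent L (fun i => KaehlerDifferential.D A L (x i)) := by
  have h1 : AlgebraicIndepOn A id (Set.range x) := h.coe_range
  obtain ⟨t, hst, ht⟩ := exists_isTranscendenceBasis_superset h1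
  have h2 := lin_basis A t ht
  have hinj : Function.Injective x := h.injective
  exact h2.comp (fun i : ι => (⟨x i, hst ⟨i, rfl⟩⟩ : t))
    (fun i j hij => hinj (congrArg Subtype.val hij))

end Pool.Agent.H69KD
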